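import Pool.Agent.Q196.SingleSing3

/-!
# G-manifolds with a single singular orbit, positive Ricci curvature and large cohomogeneity

The notions (smooth action, principal and singular orbits, cohomogeneity, invariant metric,
positive Ricci curvature) are defined in `Pool.Agent.Q196.GManDefs` and
`Pool.Agent.H839R2.Geo.Stmt`.

The example: the unit quaternions act on the unit sphere `S^{4m+2}` of `Im ℍ ⊕ ℍ^m` by
`q · (p, v_1, …, v_m) = (q p q⁻¹, q v_1, …, q v_m)`. The isotropy group is trivial except on the
2-sphere `v = 0`, which is one orbit; the round metric is invariant.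
-/

open scoped Manifold ContDiff
open Q196.GMan Pool.Agent.H839R2.Stmt

namespace Pool.Agent.Results.MP_d84343_gt.SphereExample

/-- For every `m ≥ 2` there are a compact Lie group `G` (without boundary, finite-dimensional)
acting smoothly on a closed connected manifold `M` of dimension `4m+2`, with exactly one singular
orbit, finitely many non-principal orbits and cohomogeneity `4m-1 > 3`, and a `G`-invariant
Riemannian metric on `M` with positive Ricci curvature. -/
theorem result :
    ∀ m : ℕ, 2 ≤ m → 3 < 4 * m - 1 ∧
      ∃ (EG : Type) (_ : NormedAddCommGroup EG) (_ : NormedSpace ℝ EG)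
        (HG : Type) (_ : TopologicalSpace HG) (IG : ModelWithCorners ℝ EG HG)
        (G : Type) (_ : TopologicalSpace G) (_ : ChartedSpace HG G) (_ : Group G)
        (_ : LieGroup IG ∞ G)
        (E : Type) (_ : NormedAddCommGroup E) (_ : NormedSpace ℝ E) (_ : FiniteDimensional ℝ E)
        (H : Type) (_ : TopologicalSpace H) (I : ModelWithCorners ℝ E H)
        (M : Type) (_ : TopologicalSpace M) (_ : ChartedSpace H M) (_ : IsManifold I ∞ M)
        (_ : MulAction G M),
        (FiniteDimensional ℝ EG ∧ IG.Boundaryless ∧ CompactSpace G ∧ T2Space G) ∧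
        (I.Boundaryless ∧ CompactSpace M ∧ T2Space M ∧ ConnectedSpace M ∧
          Module.finrank ℝ E = 4 * m + 2) ∧
        SmoothAction IG G I M ∧ (nonPrincipalOrbits G M).Finite ∧
        (∃! o, o ∈ singularOrbits IG G I M) ∧ HasCohomogeneity IG G I M (4 * m - 1) ∧
        ∃ g : RMetric I M, IsInvariant G g ∧ HasPosRicci g := by
  intro m hm
  refine ⟨by omega, EuclideanSpace ℝ (Fin 3), inferInstance, inferInstance,
    EuclideanSpace ℝ (Fin 3), inferInstance, 𝓡 3, Q196.UQ.SQ, inferInstance, inferInstance,
    inferInstance, inferInstance, EuclideanSpace ℝ (Fin (4 * m + 2)), inferInstance,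
    inferInstance, inferInstance, EuclideanSpace ℝ (Fin (4 * m + 2)), inferInstance,
    𝓡 (4 * m + 2), Q196.SS.Sph m, inferInstance, inferInstance, inferInstance, inferInstance,
    ⟨inferInstance, inferInstance, inferInstance, inferInstance⟩,
    ⟨inferInstance, inferInstance, inferInstance, inferInstance, finrank_euclideanSpace_fin⟩,
    Q196.SS.contMDiff_act m, Q196.SS.finite_nonPrincipal m,
    Q196.SS.unique_singular m (by omega), Q196.SS.hasCohomogeneity m (by omega),
    Q196.Round.roundMetric 1 one_pos, Q196.SS.invariant_round m 1 one_pos,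
    Q196.Round.hasPosRicci_round 1 one_pos (by omega)⟩

end Pool.Agent.Results.MP_d84343_gt.SphereExample
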